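import Mathlib
import Pool.Agent.H7.Artin.Defs

/-!
# Class field theory in the language of ideals: definitions

`F` is a number field, `E` a finite Galois extension of `F`.  The group of divisors (fractional
ideals) of `F` is written additively as `Dv F`, the finitely supported functions from the nonzero
primes of `𝓞 F` to `ℤ`.
-/

open NumberField IsDedekindDomain Module
open Pool.Agent.H7.Artin
open scoped nonZeroDivisors Pointwise

namespace Pool.Agent.H31.CF

section Base

variable {F : Type} [Field F] [NumberField F]

/-- The group of divisors of `F`. -/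
abbrev Dv (F : Type) [Field F] [NumberField F] : Type := HeightOneSpectrum (𝓞 F) →₀ ℤ

/-- The divisor of a fractional ideal (zero for the zero ideal). -/
noncomputable def fdv (I : FractionalIdeal (𝓞 F)⁰ F) : Dv F :=
  Finsupp.ofSupportFinite (fun v => FractionalIdeal.count F v I)
    (Filter.eventually_cofinite.1 (FractionalIdeal.finite_factors I))

/-- The divisor of an ideal of `𝓞 F`. -/
noncomputable def idv (I : Ideal (𝓞 F)) : Dv F := fdv (I : FractionalIdeal (𝓞 F)⁰ F)

/-- The divisor of an element of `F` (zero for `0`). -/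
noncomputable def dv (x : F) : Dv F := fdv (FractionalIdeal.spanSingleton (𝓞 F)⁰ x)

/-- Totally positive elements of `F`. -/
def TP (x : F) : Prop := ∀ φ : F →+* ℝ, 0 < φ x

/-- The divisors prime to the ideal `m`. -/
noncomputable def Cop (m : Ideal (𝓞 F)) : AddSubgroup (Dv F) where
  carrier := {D | ∀ v : HeightOneSpectrum (𝓞 F), m ≤ v.asIdeal → D v = 0}
  zero_mem' := by
    intro v _
    rfl
  add_mem' := by
    intro a b ha hb v hv
    rw [Finsupp.add_apply, ha v hv, hb v hv, add_zero]
  neg_mem' := by
    intro a ha v hv
    rw [Finsupp.neg_apply, ha v hv, neg_zero]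

/-- The ray: the group generated by the divisors of the nonzero totally positive elements
`α ∈ 𝓞 F` with `α ≡ 1 mod m`. -/
noncomputable def Pm (m : Ideal (𝓞 F)) : AddSubgroup (Dv F) :=
  AddSubgroup.closure {D | ∃ α : 𝓞 F, α ≠ 0 ∧ α - 1 ∈ m ∧ TP (α : F) ∧ D = dv (α : F)}

end Base

section Ext

variable (F E : Type) [Field F] [NumberField F] [Field E] [NumberField E] [Algebra F E]

/-- The norm of divisors from `E` to `F`. -/
noncomputable def nD : Dv E →+ Dv F :=
  Finsupp.liftAddHom fun w => zmultiplesHom (Dv F) (idv (Ideal.relNorm (𝓞 F) w.asIdeal))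

/-- The group of norms to `F` of the divisors of `E` prime to `m`. -/
noncomputable def Nm (m : Ideal (𝓞 F)) : AddSubgroup (Dv F) :=
  (Cop (m.map (algebraMap (𝓞 F) (𝓞 E)))).map (nD F E)

/-- The prime `v` of `F` is unramified in `E`: the inertia groups of all primes of `E` above `v`
are trivial. -/
def Unr (v : HeightOneSpectrum (𝓞 F)) : Prop :=
  ∀ w : HeightOneSpectrum (𝓞 E), w.asIdeal.LiesOver v.asIdeal → inertiaGroup F E w = ⊥

/-- Every prime of `F` which ramifies in `E` divides `m`. -/
def RamDvd (m : Ideal (𝓞 F)) : Prop := ∀ v : HeightOneSpectrum (𝓞 F), ¬ m ≤ v.asIdeal → Unr F E v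

variable {A : Type} [CommGroup A] [IsGalois F E]

/-- The Artin map composed with a homomorphism `χ` from the Galois group to an abelian group. -/
noncomputable def art (χ : Gal(E/F) →* A) : Dv F →+ Additive A :=
  Finsupp.liftAddHom fun v =>
    zmultiplesHom (Additive A) (Additive.ofMul (χ (frob F E (primeAbove F E v))))

end Ext

end Pool.Agent.H31.CF
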